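import Pool.Agent.V11182.ExtPts2

/-!
# Extremal points of positive Boolean functions and linear read-once functions

We prove: a positive Boolean function with exactly `n` relevant variables has at least `n + 1`
extremal points, and it has exactly `n + 1` extremal points if and only if it is linear read-once.
-/

namespace Pool.Agent.Results.MP_61c8b8_co.ExtremalPoints

/-- `x_i` is relevant for `f`: two points differing only in coordinate `i` have different values. -/
def Relevant {m : ℕ} (f : (Fin m → Bool) → Bool) (i : Fin m) : Prop :=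
  ∃ x y : Fin m → Bool, (∀ j, j ≠ i → x j = y j) ∧ f x ≠ f y

/-- minimal ones -/
def MinimalOne {m : ℕ} (f : (Fin m → Bool) → Bool) (x : Fin m → Bool) : Prop :=
  f x = true ∧ ∀ y, y < x → f y = false

/-- maximal zeros -/
def MaximalZero {m : ℕ} (f : (Fin m → Bool) → Bool) (x : Fin m → Bool) : Prop :=
  f x = false ∧ ∀ y, x < y → f y = true

/-- the number of extremal points -/
noncomputable def ext {m : ℕ} (f : (Fin m → Bool) → Bool) : ℕ :=
  {x | MinimalOne f x ∨ MaximalZero f x}.ncard

/-- The value at `x` of `x_{i_1} ∘_1 (x_{i_2} ∘_2 (⋯ ∘_{k-1} x_{i_k}))`.  The list consists of the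
pairs `(i_j, ∘_j)` for `j < k`, where `true` stands for `∨` and `false` for `∧`, and the last
argument is `i_k`. -/
def nested {m : ℕ} (x : Fin m → Bool) : List (Fin m × Bool) → Fin m → Bool
  | [], a => x a
  | (i, true) :: l, a => x i || nested x l a
  | (i, false) :: l, a => x i && nested x l a

/-- linear read-once functions: constant, or a nested formula over the relevant variables, each
listed exactly once -/
def LinearReadOnce {m : ℕ} (f : (Fin m → Bool) → Bool) : Prop :=
  (∃ c, ∀ x, f x = c) ∨
  ∃ (l : List (Fin m × Bool)) (a : Fin m),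
    (l.map Prod.fst ++ [a]).Nodup ∧
    (∀ i, i ∈ l.map Prod.fst ++ [a] ↔ Relevant f i) ∧
    ∀ x, f x = nested x l a

open Finset Pool.Agent.V11182.ExtPts

variable {m : ℕ}

/-- the indicator of a finset -/
def ind (S : Finset (Fin m)) : Fin m → Bool := fun i => decide (i ∈ S)

/-- the support of a point -/
def spt (x : Fin m → Bool) : Finset (Fin m) := univ.filter (fun i => x i = true)

lemma mem_spt {x : Fin m → Bool} {i : Fin m} : i ∈ spt x ↔ x i = true := by simp [spt]

lemma ind_spt (x : Fin m → Bool) : ind (spt x) = x := by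
  funext i
  simp [ind, spt]

lemma spt_ind (S : Finset (Fin m)) : spt (ind S) = S := by
  ext i
  simp [ind, spt]

lemma ind_injective : Function.Injective (ind (m := m)) := by
  intro S T h
  rw [← spt_ind S, h, spt_ind]

lemma ind_mono {S T : Finset (Fin m)} (h : S ⊆ T) : ind S ≤ ind T := by
  intro i
  by_cases hi : i ∈ S
  · have := h hi
    simp [ind, hi, this]
  · simp [ind, hi]

lemma spt_mono {x y : Fin m → Bool} (h : x ≤ y) : spt x ⊆ spt y := by
  intro i hi
  rw [mem_spt] at *
  have := h i
  rw [hi] at this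
  exact top_le_iff.mp this

/-- the predicate on finsets belonging to `f` -/
def U (f : (Fin m → Bool) → Bool) (S : Finset (Fin m)) : Prop := f (ind S) = true

lemma U_mon {f : (Fin m → Bool) → Bool} (hf : Monotone f) : Mon (U f) := by
  intro S S' h h1
  have h2 := hf (ind_mono h)
  unfold U at *
  rw [h1] at h2
  exact top_le_iff.mp h2

lemma not_U {f : (Fin m → Bool) → Bool} {S : Finset (Fin m)} : ¬ U f S ↔ f (ind S) = false := by
  unfold U
  rw [Bool.not_eq_true]

lemma relevant_iff {f : (Fin m → Bool) → Bool} (hf : Monotone f) (i : Fin m) :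
    Relevant f i ↔ rel (U f) i := by
  rw [rel_iff2 (U_mon hf)]
  constructor
  · have key : ∀ x y : Fin m → Bool, (∀ j, j ≠ i → x j = y j) → f x = false → f y = true →
        ∃ S S' : Finset (Fin m), (∀ j, j ≠ i → (j ∈ S ↔ j ∈ S')) ∧ ¬ U f S ∧ U f S' := by
      intro x y h h1 h2
      refine ⟨spt x, spt y, ?_, ?_, ?_⟩
      · intro j hj
        rw [mem_spt, mem_spt, h j hj]
      · rw [not_U, ind_spt]
        exact h1
      · unfold U
        rw [ind_spt]
        exact h2
    rintro ⟨x, y, h, hne⟩
    cases hx : f x <;> cases hy : f y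
    · exact absurd (hx.trans hy.symm) hne
    · exact key x y h hx hy
    · exact key y x (fun j hj => (h j hj).symm) hy hx
    · exact absurd (hx.trans hy.symm) hne
  · rintro ⟨S, S', h, h1, h2⟩
    refine ⟨ind S, ind S', ?_, ?_⟩
    · intro j hj
      unfold ind
      rw [decide_eq_decide]
      exact h j hj
    · intro h3
      rw [not_U] at h1
      unfold U at h2
      rw [h1, h2] at h3
      exact absurd h3 (by decide)

lemma lt_iff' {x y : Fin m → Bool} : x < y ↔ spt x ⊂ spt y := by
  constructor
  · intro h
    rw [ssubset_iff_subset_ne]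
    refine ⟨spt_mono h.le, fun h' => ?_⟩
    have : x = y := by rw [← ind_spt x, h', ind_spt]
    exact h.ne this
  · intro h
    have h1 : x ≤ y := by
      rw [← ind_spt x, ← ind_spt y]
      exact ind_mono h.subset
    refine lt_of_le_of_ne h1 ?_
    rintro rfl
    exact absurd h (ssubset_irrefl _)

lemma minimalOne_iff {f : (Fin m → Bool) → Bool} (hf : Monotone f) (S : Finset (Fin m)) :
    MinimalOne f (ind S) ↔ S ∈ minT (U f) := by
  rw [mem_minT' (U_mon hf)]
  unfold MinimalOne
  constructor
  · rintro ⟨h1, h2⟩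
    refine ⟨h1, fun S' hS' => ?_⟩
    rw [not_U]
    apply h2
    rw [lt_iff', spt_ind, spt_ind]
    exact hS'
  · rintro ⟨h1, h2⟩
    refine ⟨h1, fun y hy => ?_⟩
    rw [lt_iff', spt_ind] at hy
    have h3 := h2 _ hy
    rwa [not_U, ind_spt] at h3

lemma maximalZero_iff {f : (Fin m → Bool) → Bool} (hf : Monotone f) (T : Finset (Fin m)) :
    MaximalZero f (ind Tᶜ) ↔ T ∈ blk (U f) := by
  rw [mem_blk' (U_mon hf) (S := Tᶜ) (fun i => mem_compl)]
  unfold MaximalZero
  constructor
  · rintro ⟨h1, h2⟩
    refine ⟨not_U.mpr h1, fun S' hS' => ?_⟩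
    apply h2
    rw [lt_iff', spt_ind, spt_ind]
    exact hS'
  · rintro ⟨h1, h2⟩
    refine ⟨not_U.mp h1, fun y hy => ?_⟩
    rw [lt_iff', spt_ind] at hy
    have h3 := h2 _ hy
    unfold U at h3
    rwa [ind_spt] at h3

lemma ext_eq {f : (Fin m → Bool) → Bool} (hf : Monotone f) :
    ext f = (minT (U f)).card + (blk (U f)).card := by
  unfold ext
  have h1 : {x | MinimalOne f x} = ind '' (↑(minT (U f)) : Set (Finset (Fin m))) := by
    ext x
    simp only [Set.mem_ofPred_eq, Set.mem_image, mem_coe]
    constructor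
    · intro h
      exact ⟨spt x, (minimalOne_iff hf _).mp (by rwa [ind_spt]), ind_spt x⟩
    · rintro ⟨S, hS, rfl⟩
      exact (minimalOne_iff hf _).mpr hS
  have h2 : {x | MaximalZero f x} =
      (fun T : Finset (Fin m) => ind Tᶜ) '' (↑(blk (U f)) : Set (Finset (Fin m))) := by
    ext x
    simp only [Set.mem_ofPred_eq, Set.mem_image, mem_coe]
    constructor
    · intro h
      refine ⟨(spt x)ᶜ, (maximalZero_iff hf _).mp ?_, ?_⟩
      · rw [compl_compl, ind_spt]; exact h
      · rw [compl_compl, ind_spt]
    · rintro ⟨S, hS, rfl⟩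
      exact (maximalZero_iff hf _).mpr hS
  have h3 : {x | MinimalOne f x ∨ MaximalZero f x} =
      {x | MinimalOne f x} ∪ {x | MaximalZero f x} := rfl
  rw [h3, Set.ncard_union_eq]
  · have hinj : Function.Injective (fun T : Finset (Fin m) => ind Tᶜ) :=
      ind_injective.comp compl_injective
    rw [h1, h2, Set.ncard_image_of_injective _ ind_injective,
      Set.ncard_image_of_injective _ hinj,
      Set.ncard_coe_finset, Set.ncard_coe_finset]
  · rw [Set.disjoint_left]
    rintro x ⟨hx, _⟩ ⟨hx', _⟩
    rw [hx] at hx'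
    exact absurd hx' (by decide)

lemma ncard_relevant {f : (Fin m → Bool) → Bool} (hf : Monotone f) :
    {i | Relevant f i}.ncard = (R (U f)).card := by
  rw [← Set.ncard_coe_finset]
  congr 1
  ext i
  rw [Set.mem_ofPred_eq, mem_coe, mem_R, relevant_iff hf]

lemma nested_iff (S : Finset (Fin m)) (l : List (Fin m × Bool)) (a : Fin m) :
    nested (ind S) l a = true ↔ ev l a S := by
  induction l with
  | nil => simp [nested, ev, ind]
  | cons p l ih =>
    obtain ⟨i, b⟩ := p
    cases b
    · simp [nested, ev, ih, ind]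
    · simp [nested, ev, ih, ind]

/-- **Main theorem.**  Let `f` be a positive Boolean function of `m` variables.  Then
`ext f ≥ n + 1`, where `n` is the number of relevant variables of `f`, and `ext f = n + 1` if and
only if `f` is linear read-once. -/
theorem result : ∀ (m : ℕ) (f : (Fin m → Bool) → Bool), Monotone f →
    ∀ n : ℕ, {i | Relevant f i}.ncard = n →
      n + 1 ≤ ext f ∧ (ext f = n + 1 ↔ LinearReadOnce f) := by
  intro m f hf n hn
  subst hn
  rw [ext_eq hf, ncard_relevant hf]
  refine ⟨lower (U_mon hf), ?_⟩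
  have hval : ∀ x y : Fin m → Bool, (U f (spt x) ↔ U f (spt y)) → f x = f y := by
    intro x y h
    unfold U at h
    rw [ind_spt, ind_spt] at h
    exact Bool.eq_iff_iff.mpr h
  constructor
  · intro ht
    by_cases hR : R (U f) = ∅
    · left
      refine ⟨f (ind ∅), fun x => ?_⟩
      apply hval
      rw [const_of_R_empty (U_mon hf) hR, spt_ind]
    · right
      obtain ⟨l, a, hnd, hmem, hev⟩ := nested_of_tight (U_mon hf) ht
        (nonempty_iff_ne_empty.mpr hR)
      refine ⟨l, a, hnd, fun i => ?_, fun x => ?_⟩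
      · rw [relevant_iff hf, ← mem_R]
        exact hmem i
      · rw [Bool.eq_iff_iff, ← ind_spt x, nested_iff, ← hev]
        rfl
  · rintro (⟨c, hc⟩ | ⟨l, a, hnd, -, hev⟩)
    · apply tight_of_R_empty (U_mon hf)
      rw [eq_empty_iff_forall_notMem]
      intro i hi
      obtain ⟨x, y, _, hne⟩ := (relevant_iff hf i).mpr (mem_R.mp hi)
      rw [hc, hc] at hne
      exact hne rfl
    · have hU : U f = ev l a := by
        funext S
        apply propext
        rw [← nested_iff, ← hev]
        rfl
      rw [hU]
      exact (tight_ev l a hnd).1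

end Pool.Agent.Results.MP_61c8b8_co.ExtremalPoints
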